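import Mathlib
import Pool.Agent.Y18.LC.Stm3
import Pool.Agent.W401.Cheb.Main

/-!
Project LC: infinitely many nonsplit primes `q ≡ 1 (mod p)`, from Chebotarev's theorem.
-/

set_option autoImplicit false


namespace Pool.Agent.Y287.LC

open NumberField Module Polynomial

/-- the algebraic closure of `ℚ` -/
abbrev Qb : Type := AlgebraicClosure ℚ

/-- a finite Galois extension with all embeddings of `k` and the `p`-th roots of unity -/
theorem exL (k : Type) [Field k] [NumberField k] (p : ℕ) (hp : p.Prime) :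
    ∃ (L : Type) (_ : Field L) (_ : NumberField L) (_ : IsGalois ℚ L)
      (ι : L →+* AlgebraicClosure ℚ),
      (∀ τ : k →+* AlgebraicClosure ℚ, ∃ τ' : k →+* L, ∀ x, ι (τ' x) = τ x) ∧
      (∀ ζ : AlgebraicClosure ℚ, ζ ^ p = 1 → ∃ z : L, ι z = ζ) ∧
      ∀ g : AlgebraicClosure ℚ ≃+* AlgebraicClosure ℚ, ∃ h : Gal(L/ℚ), ∀ x, ι (h x) = g (ι x) := by
  have hal : Algebra.IsAlgebraic ℚ Qb := AlgebraicClosure.isAlgebraic ℚ
  have hno : Normal ℚ Qb := ⟨fun x => IsAlgClosed.splits _⟩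
  have hsp : ((X ^ p - 1 : ℚ[X]).map (algebraMap ℚ Qb)).Splits := IsAlgClosed.splits _
  obtain ⟨E2, hE2⟩ : ∃ E2 : IntermediateField ℚ Qb,
      E2 = IntermediateField.adjoin ℚ ((X ^ p - 1 : ℚ[X]).rootSet Qb) := ⟨_, rfl⟩
  have i1 : IsSplittingField ℚ E2 (X ^ p - 1 : ℚ[X]) := by
    rw [hE2]
    exact IntermediateField.adjoin_rootSet_isSplittingField hsp
  have i2 : Normal ℚ E2 := Normal.of_isSplittingField (X ^ p - 1 : ℚ[X])
  have i3 : FiniteDimensional ℚ E2 := IsSplittingField.finiteDimensional E2 (X ^ p - 1 : ℚ[X])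
  obtain ⟨E1, hE1⟩ : ∃ E1 : IntermediateField ℚ Qb, E1 = IntermediateField.normalClosure ℚ k Qb :=
    ⟨_, rfl⟩
  have i4 : Normal ℚ E1 := by rw [hE1]; exact normalClosure.normal ℚ k Qb
  have i5 : FiniteDimensional ℚ E1 := by rw [hE1]; infer_instance
  obtain ⟨E, hE⟩ : ∃ E : IntermediateField ℚ Qb, E = E1 ⊔ E2 := ⟨_, rfl⟩
  have i6 : Normal ℚ E := by
    rw [hE]; exact @IntermediateField.normal_sup ℚ _ _ _ _ E1 E2 i4 i2
  have i7 : FiniteDimensional ℚ E := by rw [hE]; infer_instance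
  have i8 : NumberField E := ⟨⟩
  have i9 : IsGalois ℚ E := ⟨⟩
  refine ⟨E, inferInstance, i8, i9, algebraMap E Qb, fun τ => ?_, fun ζ hζ => ?_, fun g => ?_⟩
  · have h1 : ∀ x, τ x ∈ E := by
      intro x
      rw [hE]
      refine (le_sup_left : E1 ≤ E1 ⊔ E2) ?_
      rw [hE1]
      exact (AlgHom.fieldRange_le_normalClosure τ.toRatAlgHom) ⟨x, rfl⟩
    exact ⟨τ.codRestrict E.toSubring h1, fun x => rfl⟩
  · have h1 : ζ ∈ E := by
      rw [hE]
      refine (le_sup_right : E2 ≤ E1 ⊔ E2) ?_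
      rw [hE2]
      refine IntermediateField.subset_adjoin _ _ ?_
      rw [Polynomial.mem_rootSet]
      refine ⟨Polynomial.X_pow_sub_C_ne_zero hp.pos 1, ?_⟩
      simp [hζ]
    exact ⟨⟨ζ, h1⟩, rfl⟩
  · exact ⟨AlgEquiv.restrictNormal g.toRatAlgEquiv E, fun x =>
      AlgEquiv.restrictNormal_commutes g.toRatAlgEquiv E x⟩

/-- every prime containing `q` is the kernel of a homomorphism to the algebraic closure of `F_q` -/
theorem exHom (B : Type) [CommRing B] [Algebra.IsIntegral ℤ B] (q : ℕ) [Fact q.Prime]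
    (Q : Ideal B) [hQ : Q.IsPrime] (hq : (q : B) ∈ Q) :
    ∃ ψ : B →+* AlgebraicClosure (ZMod q), ∀ b, ψ b = 0 ↔ b ∈ Q := by
  have hp0 : ((q : ℕ) : B ⧸ Q) = 0 := by
    have h2 := Ideal.Quotient.eq_zero_iff_mem.mpr hq
    rwa [map_natCast] at h2
  have hc : CharP (B ⧸ Q) q := (CharP.charP_iff_prime_eq_zero Fact.out).mpr hp0
  let : Algebra (ZMod q) (B ⧸ Q) := ZMod.algebra _ q
  have halg : Algebra.IsIntegral (ZMod q) (B ⧸ Q) := by
    constructor
    intro y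
    obtain ⟨b, rfl⟩ := Ideal.Quotient.mk_surjective y
    obtain ⟨f, hf, hf'⟩ := Algebra.IsIntegral.isIntegral (R := ℤ) b
    refine ⟨f.map (Int.castRingHom (ZMod q)), hf.map _, ?_⟩
    rw [eval₂_map]
    have h3 : (algebraMap (ZMod q) (B ⧸ Q)).comp (Int.castRingHom (ZMod q)) =
        (Ideal.Quotient.mk Q).comp (algebraMap ℤ B) := RingHom.ext_int _ _
    rw [h3, ← hom_eval₂, hf', map_zero]
  have hfield : IsField (B ⧸ Q) := isField_of_isIntegral_of_isField' (Field.toIsField (ZMod q))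
  let : Field (B ⧸ Q) := hfield.toField
  let ℓ : (B ⧸ Q) →ₐ[ZMod q] AlgebraicClosure (ZMod q) := IsAlgClosed.lift
  refine ⟨(ℓ : (B ⧸ Q) →+* AlgebraicClosure (ZMod q)).comp (Ideal.Quotient.mk Q), fun b => ?_⟩
  rw [← Ideal.Quotient.eq_zero_iff_mem]
  exact map_eq_zero_iff _ (RingHom.injective (ℓ : (B ⧸ Q) →+* AlgebraicClosure (ZMod q)))


/-- `q ≡ 1 (mod p)` if the Frobenius at `q` fixes a primitive `p`-th root of unity -/
theorem mod_one {B : Type} [CommRing B] [IsDomain B] {p q : ℕ} (hp : p.Prime) [Fact q.Prime]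
    (hpq : q ≠ p) (φ : B →+* AlgebraicClosure (ZMod q)) {z : B} (hz : IsPrimitiveRoot z p)
    (hφ : φ z = φ z ^ q) : q % p = 1 := by
  have hq : q.Prime := Fact.out
  have h1 : φ z ^ p = 1 := by rw [← map_pow, hz.pow_eq_one, map_one]
  have h2 : φ z ≠ 1 := by
    intro h
    have h3 := congrArg φ (hz.geom_sum_eq_zero hp.one_lt)
    rw [map_sum, map_zero] at h3
    have h4 : ∀ i ∈ Finset.range p, φ (z ^ i) = 1 := fun i _ => by rw [map_pow, h, one_pow]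
    rw [Finset.sum_congr rfl h4, Finset.sum_const, Finset.card_range, nsmul_eq_mul, mul_one] at h3
    have h5 : q ∣ p := (CharP.cast_eq_zero_iff (AlgebraicClosure (ZMod q)) q p).1 h3
    exact hpq ((Nat.prime_dvd_prime_iff_eq hq hp).1 h5)
  have hF : Fact p.Prime := ⟨hp⟩
  have h3 : orderOf (φ z) = p := orderOf_eq_prime h1 h2
  have h0 : φ z ≠ 0 := by
    intro h
    rw [h, zero_pow hp.ne_zero] at h1
    exact zero_ne_one h1
  have h4 : φ z ^ (q - 1) = 1 := by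
    have h5 : φ z * φ z ^ (q - 1) = φ z * 1 := by
      rw [← pow_succ', Nat.sub_add_cancel hq.one_lt.le, mul_one]
      exact hφ.symm
    exact mul_left_cancel₀ h0 h5
  have h5 : p ∣ q - 1 := by rw [← h3]; exact orderOf_dvd_of_pow_eq_one h4
  obtain ⟨m, hm⟩ := h5
  have h6 : q = p * m + 1 := by have := hq.one_lt; omega
  rw [h6, Nat.mul_add_mod, Nat.mod_eq_of_lt hp.one_lt]

/-- a prime of `k` over `q` is the kernel of `φ` -/
theorem one_prime {k L : Type} [Field k] [NumberField k] [Field L] [NumberField L]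
    (q : ℕ) [Fact q.Prime] (h : Gal(L/ℚ)) (τ₀ : k →+* L)
    (hτ : ∀ τ : k →+* L, ∃ j : ℕ, ∀ x, (h ^ j) (τ₀ x) = τ x)
    (φ : 𝓞 L →+* AlgebraicClosure (ZMod q)) (hφ : ∀ x : 𝓞 L, φ (h • x) = φ x ^ q)
    (htor : ∀ φ' : 𝓞 L →+* AlgebraicClosure (ZMod q), ∃ σ : Gal(L/ℚ), ∀ x : 𝓞 L,
      φ' x = φ (σ • x))
    (P : Ideal (𝓞 k)) (hP : P.IsPrime) (hqP : (q : 𝓞 k) ∈ P) (x : 𝓞 k) :
    x ∈ P ↔ φ (RingOfIntegers.mapRingHom τ₀ x) = 0 := by
  have hinj : Function.Injective (RingOfIntegers.mapRingHom τ₀) := by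
    intro a b hab
    have h1 := congrArg (fun y : 𝓞 L => (y : L)) hab
    exact RingOfIntegers.ext (τ₀.injective h1)
  obtain ⟨Q, hQ, hQP⟩ : ∃ Q : Ideal (𝓞 L), Q.IsPrime ∧
      Q.comap (RingOfIntegers.mapRingHom τ₀) = P := by
    let : Algebra (𝓞 k) (𝓞 L) := (RingOfIntegers.mapRingHom τ₀).toAlgebra
    have : Algebra.IsIntegral (𝓞 k) (𝓞 L) := Algebra.IsIntegral.tower_top ℤ
    refine Ideal.exists_ideal_over_prime_of_isIntegral_of_isDomain P ?_
    have h1 : RingHom.ker (algebraMap (𝓞 k) (𝓞 L)) = ⊥ :=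
      (RingHom.injective_iff_ker_eq_bot _).1 hinj
    rw [h1]
    exact bot_le
  have hqQ : (q : 𝓞 L) ∈ Q := by
    rw [← hQP, Ideal.mem_comap, map_natCast] at hqP
    exact hqP
  obtain ⟨ψ, hψ⟩ := exHom (𝓞 L) q Q hqQ
  obtain ⟨σ, hσ⟩ := htor ψ
  obtain ⟨j, hj⟩ := hτ ((σ : L →+* L).comp τ₀)
  have e1 : σ • RingOfIntegers.mapRingHom τ₀ x = (h ^ j) • RingOfIntegers.mapRingHom τ₀ x := by
    apply RingOfIntegers.ext
    exact (hj (x : k)).symm
  have e2 : ∀ (i : ℕ) (y : 𝓞 L), φ ((h ^ i) • y) = φ y ^ (q ^ i) := by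
    intro i
    induction i with
    | zero => intro y; rw [pow_zero, one_smul, pow_zero, pow_one]
    | succ i ih =>
      intro y
      rw [pow_succ, mul_smul, ih, hφ, ← pow_mul, pow_succ']
  have e3 : x ∈ P ↔ RingOfIntegers.mapRingHom τ₀ x ∈ Q := by rw [← hQP, Ideal.mem_comap]
  rw [e3, ← hψ, hσ, e1, e2]
  exact pow_eq_zero_iff (pow_ne_zero _ (Fact.out : q.Prime).ne_zero)

theorem chb : Pool.Agent.Y18.LC.CHB := by
  intro k _ _ p hp g hg hζ
  obtain ⟨L, i1, i2, i3, ι, hL1, hL2, hL3⟩ := exL k p hp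
  obtain ⟨h, hh⟩ := hL3 g
  obtain ⟨D, hD0, hD⟩ := Pool.Agent.W401.Cheb.torsor L
  -- an embedding
  obtain ⟨τ₀, hτ₀⟩ : ∃ τ₀ : k →+* L, True := by
    have e : k →ₐ[ℚ] AlgebraicClosure ℚ := IsAlgClosed.lift
    obtain ⟨τ', -⟩ := hL1 (e : k →+* AlgebraicClosure ℚ)
    exact ⟨τ', trivial⟩
  have hit : ∀ (j : ℕ) (x : L), ι ((h ^ j) x) = (⇑g)^[j] (ι x) := by
    intro j
    induction j with
    | zero => intro x; rfl
    | succ j ih =>
      intro x
      rw [Function.iterate_succ_apply, ← hh, ← ih, pow_succ]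
      rfl
  have hτ : ∀ τ : k →+* L, ∃ j : ℕ, ∀ x, (h ^ j) (τ₀ x) = τ x := by
    intro τ
    obtain ⟨j, hj⟩ := hg (ι.comp τ₀) (ι.comp τ)
    refine ⟨j, fun x => ι.injective ?_⟩
    rw [hit]
    exact hj x
  -- a root of unity
  obtain ⟨z, hz, hzg⟩ : ∃ z : 𝓞 L, IsPrimitiveRoot z p ∧ h • z = z := by
    have hp0 : NeZero ((p : ℕ) : AlgebraicClosure ℚ) := ⟨Nat.cast_ne_zero.2 hp.ne_zero⟩
    obtain ⟨ζ, hζ1⟩ : ∃ ζ : AlgebraicClosure ℚ, (cyclotomic p (AlgebraicClosure ℚ)).IsRoot ζ := by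
      refine IsAlgClosed.exists_root _ ?_
      rw [degree_cyclotomic, Nat.totient_prime hp]
      have := hp.two_le
      exact_mod_cast (by omega : p - 1 ≠ 0)
    have hζ2 : IsPrimitiveRoot ζ p := isRoot_cyclotomic_iff.1 hζ1
    obtain ⟨z, hz⟩ := hL2 ζ hζ2.pow_eq_one
    have hz2 : IsPrimitiveRoot z p := by
      rw [← hz] at hζ2
      exact hζ2.of_map_of_injective ι.injective
    have hz3 : h z = z := by
      apply ι.injective
      rw [hh, hz]
      exact hζ ζ hζ2.pow_eq_one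
    have : NeZero p := ⟨hp.ne_zero⟩
    exact ⟨hz2.toInteger, hz2.toInteger_isPrimitiveRoot, RingOfIntegers.ext hz3⟩
  have hfin : {q : ℕ | q ∣ D ∨ q = p}.Finite := by
    refine (Set.finite_Iic (D + p)).subset fun q hq => ?_
    rcases hq with hq | hq
    · exact (Nat.le_of_dvd hD0 hq).trans (Nat.le_add_right _ _)
    · exact hq.le.trans (Nat.le_add_left _ _)
  refine ((Pool.Agent.W401.Cheb.infinite_frob L h).sdiff hfin).mono ?_
  rintro q ⟨⟨hq, hx⟩, hn⟩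
  have hqD : ¬ q ∣ D := fun h => hn (Or.inl h)
  have hqp : q ≠ p := fun h => hn (Or.inr h)
  have hF : Fact q.Prime := ⟨hq⟩
  obtain ⟨φ, hφ⟩ : ∃ φ : 𝓞 L →+* AlgebraicClosure (ZMod q), Pool.Agent.W401.Cheb.HasFrob q φ h := by
    unfold Pool.Agent.W401.Cheb.xp at hx
    rw [dif_pos hq] at hx
    have h1 : Nonempty {φ : 𝓞 L →+* AlgebraicClosure (ZMod q) //
        Pool.Agent.W401.Cheb.HasFrob q φ h} := by
      by_contra hcon
      rw [not_nonempty_iff] at hcon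
      exact hx Nat.card_of_isEmpty
    obtain ⟨φ, hφ⟩ := h1
    exact ⟨φ, hφ⟩
  have htor : ∀ φ' : 𝓞 L →+* AlgebraicClosure (ZMod q), ∃ σ : Gal(L/ℚ), ∀ x : 𝓞 L,
      φ' x = φ (σ • x) := fun φ' => ((hD q hqD).2.1 φ φ').exists
  refine ⟨hq, mod_one hp hqp φ hz ?_, fun P P' hP hP' hqP hqP' => ?_⟩
  · have h1 := hφ z
    rw [hzg] at h1
    exact h1
  · ext x
    rw [one_prime q h τ₀ hτ φ hφ htor P hP hqP x, one_prime q h τ₀ hτ φ hφ htor P' hP' hqP' x]

end Pool.Agent.Y287.LC
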